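import Pool.Agent.H524R3.NilExample

/-!
# Correlations along `v` and `A v` for integer matrices `A` with `A² ≠ A`

For every integer `2 × 2` matrix `A` with `A² ≠ A` there are a measure preserving free action `T` of
`ℤ²` and bounded functions `f, g, h` for which `∫ f · T^v g · T^(A v) h` is not an approximate
`1`-step nilsequence in two variables.
-/

set_option autoImplicit false

open MeasureTheory Filter Topology ENNReal
open H524R3

namespace Pool.Agent.Results.MP_8ac988_an.EveryMatrix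

/-! ### The system -/

/-- the 4-torus -/
abbrev Tor4 : Type := (UnitAddCircle × UnitAddCircle) × (UnitAddCircle × UnitAddCircle)

/-- the action of `ℤ²` on the 4-torus -/
noncomputable def act (p q r a b c d : ℤ) (τ : UnitAddCircle) (u : ℤ × ℤ) (x : Tor4) : Tor4 :=
  ((x.1.1 + (2 * (p * u.1 + q * u.2)) • τ, x.1.2 + (2 * (q * u.1 + r * u.2)) • τ),
    (x.2.1 + (u.1 • x.1.1 + u.2 • x.1.2 + (p * u.1 ^ 2 + 2 * q * u.1 * u.2 + r * u.2 ^ 2) • τ),
      x.2.2 - ((a * u.1 + b * u.2) • x.1.1 + (c * u.1 + d * u.2) • x.1.2 +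
        ((p * a + q * c) * u.1 ^ 2 + 2 * (p * b + q * d) * u.1 * u.2 +
          (q * b + r * d) * u.2 ^ 2) • τ)))

section
variable (p q r a b c d : ℤ) (τ : UnitAddCircle)

lemma act_zero (x : Tor4) : act p q r a b c d τ 0 x = x := by
  unfold act
  simp

lemma act_add (hsym : p * b + q * d = q * a + r * c) (u v : ℤ × ℤ) (x : Tor4) :
    act p q r a b c d τ (u + v) x = act p q r a b c d τ u (act p q r a b c d τ v x) := by
  unfold act
  simp only [Prod.fst_add, Prod.snd_add]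
  refine Prod.ext (Prod.ext ?_ ?_) (Prod.ext ?_ ?_)
  · simp only
    module
  · simp only
    module
  · simp only
    module
  · simp only
    have h : (p * b + q * d) • τ = (q * a + r * c) • τ := by rw [hsym]
    linear_combination (norm := module) (-(2 * u.1 * v.2)) • h

lemma act_mp (u : ℤ × ℤ) :
    MeasurePreserving (act p q r a b c d τ u) (volume : Measure Tor4) volume := by
  have h1 : MeasurePreserving (fun x : UnitAddCircle × UnitAddCircle =>
      (x.1 + (2 * (p * u.1 + q * u.2)) • τ, x.2 + (2 * (q * u.1 + r * u.2)) • τ))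
      (volume : Measure (UnitAddCircle × UnitAddCircle)) volume :=
    (measurePreserving_add_right (volume : Measure UnitAddCircle)
      ((2 * (p * u.1 + q * u.2)) • τ)).prod
      (measurePreserving_add_right (volume : Measure UnitAddCircle)
        ((2 * (q * u.1 + r * u.2)) • τ))
  have h2 := MeasurePreserving.skew_product
    (μa := (volume : Measure (UnitAddCircle × UnitAddCircle)))
    (μb := (volume : Measure (UnitAddCircle × UnitAddCircle)))
    (μc := (volume : Measure (UnitAddCircle × UnitAddCircle)))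
    (μd := (volume : Measure (UnitAddCircle × UnitAddCircle))) h1
    (g := fun x y =>
      (y.1 + (u.1 • x.1 + u.2 • x.2 + (p * u.1 ^ 2 + 2 * q * u.1 * u.2 + r * u.2 ^ 2) • τ),
      y.2 - ((a * u.1 + b * u.2) • x.1 + (c * u.1 + d * u.2) • x.2 +
        ((p * a + q * c) * u.1 ^ 2 + 2 * (p * b + q * d) * u.1 * u.2 +
          (q * b + r * d) * u.2 ^ 2) • τ))) (by
        apply Continuous.measurable
        fun_prop)
    (Filter.Eventually.of_forall fun x =>
      ((measurePreserving_add_right (volume : Measure UnitAddCircle)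
        (u.1 • x.1 + u.2 • x.2 + (p * u.1 ^ 2 + 2 * q * u.1 * u.2 + r * u.2 ^ 2) • τ)).prod
        (measurePreserving_sub_right (volume : Measure UnitAddCircle)
        ((a * u.1 + b * u.2) • x.1 + (c * u.1 + d * u.2) • x.2 +
        ((p * a + q * c) * u.1 ^ 2 + 2 * (p * b + q * d) * u.1 * u.2 +
          (q * b + r * d) * u.2 ^ 2) • τ))).map_eq)
  exact h2

/-- coefficient of `m²` -/
def qa : ℤ := p * a ^ 2 + 2 * q * a * c + r * c ^ 2 - (p * a + q * c)
/-- coefficient of `m n` -/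
def qb : ℤ := 2 * (p * a * b + q * (a * d + b * c) + r * c * d) - 2 * (p * b + q * d)
/-- coefficient of `n²` -/
def qc : ℤ := p * b ^ 2 + 2 * q * b * d + r * d ^ 2 - (q * b + r * d)

lemma phase (m n : ℤ) (x : Tor4) :
    (-1 : ℤ) • (x.2.1 + x.2.2) + (1 : ℤ) • (act p q r a b c d τ (m, n) x).2.2 +
      (1 : ℤ) • (act p q r a b c d τ (a * m + b * n, c * m + d * n) x).2.1 =
    (qa p q r a c * m ^ 2 + qb p q r a b c d * (m * n) + qc p q r b d * n ^ 2) • τ := by
  unfold act qa qb qc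
  simp only
  module

end

/-- the quadratic phase -/
noncomputable def quadS (θ : ℝ) (α β γ : ℤ) (m n : ℕ) : ℂ :=
  Complex.exp (2 * Real.pi * Complex.I *
    ((θ * ((α : ℝ) * (m : ℝ) ^ 2 + β * (m * n) + γ * (n : ℝ) ^ 2) : ℝ) : ℂ))

theorem norm_quadS (θ : ℝ) (α β γ : ℤ) (m n : ℕ) : ‖quadS θ α β γ m n‖ = 1 := norm_expI _

theorem expI_ne_one (θ : ℝ) (hθ : Irrational θ) (j : ℤ) (hj : j ≠ 0) :
    Complex.exp (2 * Real.pi * Complex.I * ((θ * j : ℝ) : ℂ)) ≠ 1 := by
  intro h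
  rw [Complex.exp_eq_one_iff] at h
  obtain ⟨n, hn⟩ := h
  have hpi : (2 * (Real.pi : ℂ) * Complex.I) ≠ 0 := by
    simp [Real.pi_ne_zero, Complex.I_ne_zero]
  have h1 : ((θ * j : ℝ) : ℂ) = (n : ℂ) := by
    apply mul_left_cancel₀ hpi
    rw [hn]; ring
  have h2 : θ * j = (n : ℝ) := by exact_mod_cast h1
  have hj' : (j : ℝ) ≠ 0 := by exact_mod_cast hj
  apply hθ
  refine ⟨(n : ℚ) / j, ?_⟩
  push_cast
  rw [div_eq_iff hj']
  linarith

theorem quad_shift' (θ : ℝ) (α β γ : ℤ) (k l m n : ℕ) :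
    ‖quadS θ α β γ (m + l) n - quadS θ α β γ (m + k) n‖ ^ 2 =
      2 - 2 * (Complex.exp (2 * Real.pi * Complex.I *
        ((θ * ((α * ((l : ℤ) - k) * (l + k) : ℤ) : ℝ) : ℝ) : ℂ)) *
        Complex.exp (2 * Real.pi * Complex.I * ((θ * ((2 * α * ((l : ℤ) - k) : ℤ) : ℝ) : ℝ) : ℂ)) ^ m *
        Complex.exp (2 * Real.pi * Complex.I *
            ((θ * ((β * ((l : ℤ) - k) : ℤ) : ℝ) : ℝ) : ℂ)) ^ n).re := by
  set c := Complex.exp (2 * Real.pi * Complex.I *
        ((θ * ((α * ((l : ℤ) - k) * (l + k) : ℤ) : ℝ) : ℝ) : ℂ)) with hc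
  set z := Complex.exp (2 * Real.pi * Complex.I *
    ((θ * ((2 * α * ((l : ℤ) - k) : ℤ) : ℝ) : ℝ) : ℂ)) with hz
  set y := Complex.exp (2 * Real.pi * Complex.I *
            ((θ * ((β * ((l : ℤ) - k) : ℤ) : ℝ) : ℝ) : ℂ)) with hy
  have h1 : quadS θ α β γ (m + l) n = quadS θ α β γ (m + k) n * (c * z ^ m * y ^ n) := by
    rw [hc, hz, hy, ← Complex.exp_nat_mul, ← Complex.exp_nat_mul]
    unfold quadS
    rw [← Complex.exp_add, ← Complex.exp_add, ← Complex.exp_add]
    congr 1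
    push_cast
    ring
  set w := c * z ^ m * y ^ n with hw
  have hwn : ‖w‖ = 1 := by
    rw [hw, norm_mul, norm_mul, norm_pow, norm_pow, hc, hz, hy, norm_expI, norm_expI, norm_expI]
    simp
  have h2 : quadS θ α β γ (m + l) n - quadS θ α β γ (m + k) n =
      quadS θ α β γ (m + k) n * (w - 1) := by
    rw [h1]; ring
  rw [h2, norm_mul, norm_quadS, one_mul, ← Complex.normSq_eq_norm_sq]
  have h3 : Complex.normSq w = 1 := by rw [Complex.normSq_eq_norm_sq, hwn]; norm_num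
  rw [Complex.normSq_sub, h3]
  simp
  ring

theorem norm_sum_pow_le (z : ℂ) (hz : ‖z‖ = 1) (N : ℕ) :
    ‖∑ m ∈ Finset.Icc 1 (N + 1), z ^ m‖ ≤ (N : ℝ) + 1 := by
  refine (norm_sum_le _ _).trans ?_
  rw [Finset.sum_congr rfl (fun m _ => by rw [norm_pow, hz, one_pow] :
    ∀ m ∈ Finset.Icc 1 (N + 1), ‖z ^ m‖ = 1)]
  simp

theorem quad_sum_lower' (θ : ℝ) (hθ : Irrational θ) (α β γ : ℤ) (hαβ : α ≠ 0 ∨ β ≠ 0) (k l : ℕ)
    (hkl : k < l) : ∃ K : ℝ, ∀ N : ℕ, 2 * (((N : ℝ) + 1) * (N + 1)) - K * (N + 1) ≤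
      ∑ v ∈ sq 0 N, ‖quadS θ α β γ (v.1 + l) v.2 - quadS θ α β γ (v.1 + k) v.2‖ ^ 2 := by
  set c := Complex.exp (2 * Real.pi * Complex.I *
        ((θ * ((α * ((l : ℤ) - k) * (l + k) : ℤ) : ℝ) : ℝ) : ℂ)) with hc
  set z := Complex.exp (2 * Real.pi * Complex.I *
    ((θ * ((2 * α * ((l : ℤ) - k) : ℤ) : ℝ) : ℝ) : ℂ)) with hz
  set y := Complex.exp (2 * Real.pi * Complex.I *
            ((θ * ((β * ((l : ℤ) - k) : ℤ) : ℝ) : ℝ) : ℂ)) with hy
  have hcn : ‖c‖ = 1 := norm_expI _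
  have hzn : ‖z‖ = 1 := norm_expI _
  have hyn : ‖y‖ = 1 := norm_expI _
  have hlk : ((l : ℤ) - k) ≠ 0 := by omega
  have hsum : ∀ N : ℕ, ∑ v ∈ sq 0 N, ‖quadS θ α β γ (v.1 + l) v.2 -
      quadS θ α β γ (v.1 + k) v.2‖ ^ 2 =
      2 * (((N : ℝ) + 1) * (N + 1)) - 2 * (c * (∑ m ∈ Finset.Icc 1 (N + 1), z ^ m) *
        ∑ n ∈ Finset.Icc 1 (N + 1), y ^ n).re := by
    intro N
    have h2 : ∀ v : ℕ × ℕ, ‖quadS θ α β γ (v.1 + l) v.2 - quadS θ α β γ (v.1 + k) v.2‖ ^ 2 =
        2 - 2 * (c * z ^ v.1 * y ^ v.2).re := fun v => quad_shift' θ α β γ k l v.1 v.2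
    simp only [h2]
    rw [Finset.sum_sub_distrib, ← Finset.mul_sum, Finset.sum_const, sq_card, nsmul_eq_mul]
    congr 1
    · push_cast; ring
    · congr 1
      rw [← Complex.re_sum]
      congr 1
      unfold H524R3.sq
      rw [Finset.sum_product, Finset.mul_sum (f := fun m => z ^ m), Finset.sum_mul_sum]
  have hre : ∀ N : ℕ, (c * (∑ m ∈ Finset.Icc 1 (N + 1), z ^ m) *
        ∑ n ∈ Finset.Icc 1 (N + 1), y ^ n).re ≤ ‖∑ m ∈ Finset.Icc 1 (N + 1), z ^ m‖ *
        ‖∑ n ∈ Finset.Icc 1 (N + 1), y ^ n‖ := by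
    intro N
    refine (Complex.re_le_norm _).trans ?_
    rw [norm_mul, norm_mul, hcn, one_mul]
  rcases hαβ with h | h
  · have hz1 : z ≠ 1 := expI_ne_one θ hθ _ (mul_ne_zero (mul_ne_zero two_ne_zero h) hlk)
    refine ⟨2 * (2 / ‖z - 1‖), fun N => ?_⟩
    rw [hsum N]
    have h3 := (hre N).trans (mul_le_mul (geom_bound z hzn hz1 _) (norm_sum_pow_le y hyn N)
      (norm_nonneg _) (by positivity))
    linarith
  · have hy1 : y ≠ 1 := expI_ne_one θ hθ _ (mul_ne_zero h hlk)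
    refine ⟨2 * (2 / ‖y - 1‖), fun N => ?_⟩
    rw [hsum N]
    have h3 := (hre N).trans (mul_le_mul (norm_sum_pow_le z hzn N) (geom_bound y hyn hy1 _)
      (norm_nonneg _) (by positivity))
    linarith

/-- For irrational `θ` a quadratic phase with `α ≠ 0` or `β ≠ 0` is not an approximate 1-step
nilsequence. -/
theorem quad_not_approx' (θ : ℝ) (hθ : Irrational θ) (α β γ : ℤ) (hαβ : α ≠ 0 ∨ β ≠ 0) :
    ¬ IsApproxNilseq 1 (quadS θ α β γ) := by
  intro h
  obtain ⟨ast, aer, hsum, hnil, -, hsmall⟩ := h (1 / 4) (by norm_num)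
  obtain ⟨k, l, hkl, hrec⟩ := nilseq_recur ast hnil (1 / 4) (by norm_num)
  obtain ⟨K, hK⟩ := quad_sum_lower' θ hθ α β γ hαβ k l hkl
  have hl := eventually_sum_le aer (1 / 4) (1 / 16) (by norm_num) (by norm_num) hsmall (sq l)
    (isFolner_sq l)
  have hk := eventually_sum_le aer (1 / 4) (1 / 16) (by norm_num) (by norm_num) hsmall (sq k)
    (isFolner_sq k)
  have hbig : ∀ᶠ N : ℕ in atTop, K < (N : ℝ) :=
    tendsto_natCast_atTop_atTop.eventually (eventually_gt_atTop K)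
  obtain ⟨N, hl', hk', hN⟩ := (hl.and (hk.and hbig)).exists
  have hshift : ∀ c : ℕ, ∑ v ∈ sq c N, ‖aer v.1 v.2‖ ^ 2 = ∑ v ∈ sq 0 N, ‖aer (v.1 + c) v.2‖ ^ 2 := by
    intro c
    have himg : sq c N = (sq 0 N).image (fun v => (v.1 + c, v.2)) := by
      ext ⟨x, y⟩
      simp only [H524R3.sq, Finset.mem_product, Finset.mem_Icc, Finset.mem_image, Prod.exists, Prod.mk.injEq]
      constructor
      · rintro ⟨⟨h1, h2⟩, h3, h4⟩
        exact ⟨x - c, y, ⟨⟨by omega, by omega⟩, h3, h4⟩, by omega, rfl⟩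
      · rintro ⟨a, b, ⟨⟨h1, h2⟩, h3, h4⟩, h5, h6⟩
        omega
    rw [himg, Finset.sum_image]
    rintro ⟨a, b⟩ _ ⟨a', b'⟩ _ h
    simp only [Prod.mk.injEq] at h
    ext
    · show a = a'; omega
    · exact h.2
  rw [hshift l, sq_card] at hl'
  rw [hshift k, sq_card] at hk'
  have hup : ∑ v ∈ sq 0 N, ‖quadS θ α β γ (v.1 + l) v.2 - quadS θ α β γ (v.1 + k) v.2‖ ^ 2 ≤
      ∑ v ∈ sq 0 N, (3 * ‖aer (v.1 + l) v.2‖ ^ 2 + 3 * ‖aer (v.1 + k) v.2‖ ^ 2 + 3 / 16) := by
    refine Finset.sum_le_sum fun v hv => ?_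
    simp only [H524R3.sq, Finset.mem_product, Finset.mem_Icc] at hv
    rw [hsum (v.1 + l) v.2 (by omega) (by omega), hsum (v.1 + k) v.2 (by omega) (by omega)]
    have e1 : ast (v.1 + l) v.2 + aer (v.1 + l) v.2 - (ast (v.1 + k) v.2 + aer (v.1 + k) v.2) =
        aer (v.1 + l) v.2 + (-aer (v.1 + k) v.2) + (ast (v.1 + l) v.2 - ast (v.1 + k) v.2) := by ring
    have e2 := norm_add₃_le (a := aer (v.1 + l) v.2) (b := -aer (v.1 + k) v.2)
      (c := ast (v.1 + l) v.2 - ast (v.1 + k) v.2)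
    rw [norm_neg] at e2
    have e3 := hrec v.1 v.2 (by omega) (by omega)
    rw [e1]
    have p1 := norm_nonneg (aer (v.1 + l) v.2)
    have p2 := norm_nonneg (aer (v.1 + k) v.2)
    have p3 := norm_nonneg (ast (v.1 + l) v.2 - ast (v.1 + k) v.2)
    have p4 := norm_nonneg (aer (v.1 + l) v.2 + (-aer (v.1 + k) v.2) +
      (ast (v.1 + l) v.2 - ast (v.1 + k) v.2))
    have e4 : ‖aer (v.1 + l) v.2 + (-aer (v.1 + k) v.2) +
        (ast (v.1 + l) v.2 - ast (v.1 + k) v.2)‖ ^ 2 ≤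
        (‖aer (v.1 + l) v.2‖ + ‖aer (v.1 + k) v.2‖ + 1 / 4) ^ 2 := by
      apply pow_le_pow_left₀ p4
      linarith
    refine e4.trans ?_
    nlinarith [sq_nonneg (‖aer (v.1 + l) v.2‖ - ‖aer (v.1 + k) v.2‖),
      sq_nonneg (‖aer (v.1 + l) v.2‖ - 1 / 4), sq_nonneg (‖aer (v.1 + k) v.2‖ - 1 / 4)]
  rw [Finset.sum_add_distrib, Finset.sum_add_distrib, ← Finset.mul_sum, ← Finset.mul_sum,
    Finset.sum_const, sq_card, nsmul_eq_mul] at hup
  have hlow := hK N
  push_cast at hl' hk' hup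
  have hN0 : (0 : ℝ) ≤ N := Nat.cast_nonneg N
  have hK2 : K * ((N : ℝ) + 1) ≤ N * (N + 1) := by
    apply mul_le_mul_of_nonneg_right hN.le
    positivity
  nlinarith

/-! ### Exchanging the two variables -/

theorem translate_swap (I : Finset (ℕ × ℕ)) (k : ℤ × ℤ) :
    H524R3.translate (I.image Prod.swap) k = (H524R3.translate I k.swap).image Prod.swap := by
  unfold H524R3.translate
  rw [Finset.image_image, Finset.image_image]
  rfl

theorem isFolner_swap {I : ℕ → Finset (ℕ × ℕ)} (h : IsFolner I) :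
    IsFolner (fun j => (I j).image Prod.swap) := by
  refine ⟨fun j => (h.1 j).image _, ?_, ?_⟩
  · intro j v hv
    obtain ⟨w, hw, rfl⟩ := Finset.mem_image.1 hv
    have := h.2.1 j w hw
    exact ⟨this.2, this.1⟩
  · intro k
    refine (h.2.2 k.swap).congr (fun j => ?_)
    rw [translate_swap, translate_swap, Prod.swap_zero, ← Finset.image_symmDiff _ _
      Prod.swap_injective, Finset.card_image_of_injective _ Prod.swap_injective,
      Finset.card_image_of_injective _ Prod.swap_injective]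

theorem seminorm_swap (b : ℕ → ℕ → ℂ) : seminormTwo (fun m n => b n m) ≤ seminormTwo b := by
  unfold seminormTwo
  apply ENNReal.rpow_le_rpow _ (by norm_num)
  refine iSup_le fun I => ?_
  refine le_trans (le_of_eq ?_) (le_iSup (fun I : {I : ℕ → Finset (ℕ × ℕ) // IsFolner I} =>
    limsup (fun j => (∑ v ∈ I.1 j, ‖b v.1 v.2‖ₑ ^ 2) / ((I.1 j).card : ℝ≥0∞)) atTop)
    ⟨fun j => (I.1 j).image Prod.swap, isFolner_swap I.2⟩)
  congr 1
  funext j
  rw [Finset.sum_image (fun _ _ _ _ h => Prod.swap_injective h),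
    Finset.card_image_of_injective _ Prod.swap_injective]
  rfl

theorem isNilseq_swap (s : ℕ) (a : ℕ → ℕ → ℂ) (h : IsNilseq s a) :
    IsNilseq s (fun m n => a n m) := by
  obtain ⟨G, i1, i2, i3, i4, Γ, i5, Ψ, τ₁, τ₂, hc, hcomm, hψ⟩ := h
  refine ⟨G, i1, i2, i3, i4, Γ, i5, Ψ, τ₂, τ₁, hc, hcomm.symm, fun m n hm hn => ?_⟩
  show a n m = _
  rw [hψ n m hn hm, (hcomm.pow_pow n m).eq]

theorem isApprox_swap (s : ℕ) (a : ℕ → ℕ → ℂ) (h : IsApproxNilseq s a) :
    IsApproxNilseq s (fun m n => a n m) := by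
  intro ε hε
  obtain ⟨ast, aer, h1, h2, h3, h4⟩ := h ε hε
  refine ⟨fun m n => ast n m, fun m n => aer n m, fun m n hm hn => h1 n m hn hm,
    isNilseq_swap s ast h2, fun C hC m n hm hn => h3 C (fun m' n' hm' hn' => hC n' m' hn' hm')
      n m hn hm, (seminorm_swap aer).trans h4⟩

theorem quad_not_approx'' (θ : ℝ) (hθ : Irrational θ) (α β γ : ℤ)
    (h : α ≠ 0 ∨ β ≠ 0 ∨ γ ≠ 0) : ¬ IsApproxNilseq 1 (quadS θ α β γ) := by
  by_cases hαβ : α ≠ 0 ∨ β ≠ 0
  · exact quad_not_approx' θ hθ α β γ hαβ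
  · have hγ : γ ≠ 0 := by tauto
    intro hh
    refine quad_not_approx' θ hθ γ β α (Or.inl hγ) ?_
    have h1 := isApprox_swap 1 _ hh
    have h2 : (fun m n => quadS θ α β γ n m) = quadS θ γ β α := by
      funext m n
      unfold quadS
      congr 3
      ring
    rw [h2] at h1
    exact h1

/-! ### The symmetric matrix -/

theorem exists_sym (a b c d : ℤ) : ∃ p q r : ℤ, p * b + q * d = q * a + r * c ∧
    p * r - q * q ≠ 0 := by
  by_cases hb : b = 0
  · by_cases hc : c = 0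
    · exact ⟨1, 0, 1, by rw [hb, hc]; ring, by norm_num⟩
    · refine ⟨0, c, d - a, by ring, ?_⟩
      have : c * c ≠ 0 := mul_ne_zero hc hc
      intro h
      apply this
      linarith
  · refine ⟨a - d, b, 0, by ring, ?_⟩
    have : b * b ≠ 0 := mul_ne_zero hb hb
    intro h
    apply this
    linarith

theorem coeff_ne (p q r a b c d : ℤ) (hsym : p * b + q * d = q * a + r * c)
    (hdet : p * r - q * q ≠ 0)
    (hA : ¬ (a * a + b * c = a ∧ a * b + b * d = b ∧ c * a + d * c = c ∧ c * b + d * d = d)) :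
    qa p q r a c ≠ 0 ∨ qb p q r a b c d ≠ 0 ∨ qc p q r b d ≠ 0 := by
  by_contra hcon
  push Not at hcon
  obtain ⟨h1, h2, h3⟩ := hcon
  unfold qa at h1
  unfold qb at h2
  unfold qc at h3
  have n11 : p * (a * a + b * c - a) + q * (c * a + d * c - c) = 0 := by
    linear_combination h1 + c * hsym
  have n12' : 2 * (p * (a * b + b * d - b) + q * (c * b + d * d - d)) = 0 := by
    linear_combination h2 + 2 * d * hsym
  have n21' : 2 * (q * (a * a + b * c - a) + r * (c * a + d * c - c)) = 0 := by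
    linear_combination h2 + 2 * (1 - a) * hsym
  have n22 : q * (a * b + b * d - b) + r * (c * b + d * d - d) = 0 := by
    linear_combination h3 - b * hsym
  have n12 : p * (a * b + b * d - b) + q * (c * b + d * d - d) = 0 := by omega
  have n21 : q * (a * a + b * c - a) + r * (c * a + d * c - c) = 0 := by omega
  apply hA
  have key : ∀ x : ℤ, (p * r - q * q) * x = 0 → x = 0 := by
    intro x hx
    rcases mul_eq_zero.1 hx with h | h
    · exact absurd h hdet
    · exact h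
  refine ⟨?_, ?_, ?_, ?_⟩
  · have := key (a * a + b * c - a) (by linear_combination r * n11 - q * n21)
    linarith
  · have := key (a * b + b * d - b) (by linear_combination r * n12 - q * n22)
    linarith
  · have := key (c * a + d * c - c) (by linear_combination p * n21 - q * n11)
    linarith
  · have := key (c * b + d * d - d) (by linear_combination p * n22 - q * n12)
    linarith

/-! ### The correlation -/

/-- the functions -/
noncomputable def fF (x : Tor4) : ℂ := fourier (-1) (x.2.1 + x.2.2)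
/-- the functions -/
noncomputable def fG (x : Tor4) : ℂ := fourier 1 x.2.2
/-- the functions -/
noncomputable def fH (x : Tor4) : ℂ := fourier 1 x.2.1

theorem integrand (θ : ℝ) (p q r a b c d : ℤ) (m n : ℕ) (x : Tor4) :
    fF x * fG (act p q r a b c d (θ : UnitAddCircle) ((m : ℤ), (n : ℤ)) x) *
      fH (act p q r a b c d (θ : UnitAddCircle) (a * m + b * n, c * m + d * n) x) =
    quadS θ (qa p q r a c) (qb p q r a b c d) (qc p q r b d) m n := by
  unfold fF fG fH
  simp only [fourier_apply, ← Circle.coe_mul, ← AddCircle.toCircle_add]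
  rw [phase p q r a b c d (θ : UnitAddCircle) (m : ℤ) (n : ℤ) x]
  set j : ℤ := qa p q r a c * (m : ℤ) ^ 2 + qb p q r a b c d * ((m : ℤ) * n) +
    qc p q r b d * (n : ℤ) ^ 2 with hj
  have e1 : j • (θ : UnitAddCircle) = (((j : ℝ) * θ : ℝ) : UnitAddCircle) := by
    rw [← AddCircle.coe_zsmul, zsmul_eq_mul]
  rw [e1]
  have h1 := fourier_coe_apply (T := 1) (n := 1) (x := ((j : ℝ) * θ : ℝ))
  rw [fourier_apply, one_smul] at h1
  rw [h1]
  unfold quadS
  congr 1
  rw [hj]
  push_cast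
  ring

theorem prob4 : IsProbabilityMeasure (volume : Measure Tor4) := by
  have := prob_circle
  infer_instance

theorem single_zero (x : Tor4) : (volume : Measure Tor4) {x} = 0 := by
  have h2 : ∀ y : UnitAddCircle, (volume : Measure UnitAddCircle) {y} = 0 := by
    intro y
    have h3 := AddCircle.volume_closedBall (1 : ℝ) (x := y) 0
    rw [Metric.closedBall_zero] at h3
    rw [h3]
    simp
  have h1 : ({x} : Set Tor4) = {x.1} ×ˢ {x.2} := by
    ext ⟨a, b⟩
    simp [Prod.ext_iff]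
  have h4 : ({x.1} : Set (UnitAddCircle × UnitAddCircle)) = {x.1.1} ×ˢ {x.1.2} := by
    ext ⟨a, b⟩
    simp [Prod.ext_iff]
  rw [h1]
  show ((volume : Measure (UnitAddCircle × UnitAddCircle)).prod
    (volume : Measure (UnitAddCircle × UnitAddCircle))) _ = 0
  rw [Measure.prod_prod, h4]
  have h5 : (volume : Measure (UnitAddCircle × UnitAddCircle)) ({x.1.1} ×ˢ {x.1.2}) = 0 := by
    show ((volume : Measure UnitAddCircle).prod (volume : Measure UnitAddCircle)) _ = 0
    rw [Measure.prod_prod, h2, zero_mul]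
  rw [h5, zero_mul]

theorem act_free (θ : ℝ) (hθ : Irrational θ) (p q r a b c d : ℤ) (hdet : p * r - q * q ≠ 0)
    (u : ℤ × ℤ) (hu : u ≠ 0) (x : Tor4) : act p q r a b c d (θ : UnitAddCircle) u x ≠ x := by
  intro h
  have h1 : x.1.1 + (2 * (p * u.1 + q * u.2)) • (θ : UnitAddCircle) = x.1.1 :=
    congrArg (fun y : Tor4 => y.1.1) h
  have h2 : x.1.2 + (2 * (q * u.1 + r * u.2)) • (θ : UnitAddCircle) = x.1.2 :=
    congrArg (fun y : Tor4 => y.1.2) h
  have h3 : 2 * (p * u.1 + q * u.2) = 0 := by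
    apply smul_coe_injective θ hθ
    rw [zero_smul]
    exact add_eq_left.1 h1
  have h4 : 2 * (q * u.1 + r * u.2) = 0 := by
    apply smul_coe_injective θ hθ
    rw [zero_smul]
    exact add_eq_left.1 h2
  have key : ∀ x : ℤ, 2 * ((p * r - q * q) * x) = 0 → x = 0 := by
    intro x hx
    have hx' : (p * r - q * q) * x = 0 := by omega
    rcases mul_eq_zero.1 hx' with h | h
    · exact absurd h hdet
    · exact h
  apply hu
  ext
  · exact key u.1 (by linear_combination r * h3 - q * h4)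
  · exact key u.2 (by linear_combination p * h4 - q * h3)

/-- **Correlations along `v` and `A v`.** Let `A` be an integer `2 × 2` matrix with `A² ≠ A`.
There are a non-atomic Lebesgue probability space `(X, μ)`, a free measure preserving action `T` of
`ℤ²` on it and measurable functions `f, g, h` bounded by `1` such that the correlation sequence
`a (m, n) = ∫ f · T^(m,n) g · T^(A (m,n)) h dμ` is not an approximate 1-step nilsequence in
2 variables. -/
theorem result (A : Matrix (Fin 2) (Fin 2) ℤ) (hA : A * A ≠ A) :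
    ∃ (X : Type) (_ : MeasurableSpace X) (_ : StandardBorelSpace X) (μ : Measure X)
      (_ : IsProbabilityMeasure μ) (T : ℤ × ℤ → X → X),
      (∀ x, μ {x} = 0) ∧ (∀ x, T 0 x = x) ∧ (∀ u v x, T (u + v) x = T u (T v x)) ∧
      (∀ u, MeasurePreserving (T u) μ μ) ∧ (∀ u, u ≠ 0 → ∀ x, T u x ≠ x) ∧
      ∃ f g h : X → ℂ, Measurable f ∧ Measurable g ∧ Measurable h ∧
        (∀ x, ‖f x‖ ≤ 1) ∧ (∀ x, ‖g x‖ ≤ 1) ∧ (∀ x, ‖h x‖ ≤ 1) ∧
        ¬ IsApproxNilseq 1
          (fun m n => ∫ x, f x * g (T ((m : ℤ), (n : ℤ)) x) *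
            h (T (A 0 0 * m + A 0 1 * n, A 1 0 * m + A 1 1 * n) x) ∂μ) := by
  have hθ : Irrational (Real.sqrt 2) := irrational_sqrt_two
  obtain ⟨p, q, r, hsym, hdet⟩ := exists_sym (A 0 0) (A 0 1) (A 1 0) (A 1 1)
  have hA' : ¬ (A 0 0 * A 0 0 + A 0 1 * A 1 0 = A 0 0 ∧ A 0 0 * A 0 1 + A 0 1 * A 1 1 = A 0 1 ∧
      A 1 0 * A 0 0 + A 1 1 * A 1 0 = A 1 0 ∧ A 1 0 * A 0 1 + A 1 1 * A 1 1 = A 1 1) := by
    rintro ⟨h1, h2, h3, h4⟩
    apply hA
    ext i j
    fin_cases i <;> fin_cases j <;> simp [Matrix.mul_apply, Fin.sum_univ_two] <;> assumption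
  have hne := coeff_ne p q r _ _ _ _ hsym hdet hA'
  have hp := prob4
  have hs0 : StandardBorelSpace (UnitAddCircle × UnitAddCircle) := inferInstance
  have hs1 : StandardBorelSpace Tor4 := StandardBorelSpace.prod
  refine ⟨Tor4, inferInstance, hs1, volume, hp,
    act p q r (A 0 0) (A 0 1) (A 1 0) (A 1 1) ((Real.sqrt 2 : ℝ) : UnitAddCircle), single_zero,
    act_zero _ _ _ _ _ _ _ _, act_add _ _ _ _ _ _ _ _ hsym, act_mp _ _ _ _ _ _ _ _,
    act_free _ hθ _ _ _ _ _ _ _ hdet, fF, fG, fH, ?_, ?_, ?_, ?_, ?_, ?_, ?_⟩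
  · exact ((fourier (-1)).continuous.comp (by fun_prop)).measurable
  · exact ((fourier 1).continuous.comp (by fun_prop)).measurable
  · exact ((fourier 1).continuous.comp (by fun_prop)).measurable
  · intro x
    unfold fF; rw [fourier_apply]; exact (Circle.norm_coe _).le
  · intro x
    unfold fG; rw [fourier_apply]; exact (Circle.norm_coe _).le
  · intro x
    unfold fH; rw [fourier_apply]; exact (Circle.norm_coe _).le
  · simp only [integrand]
    simp only [integral_const, probReal_univ, one_smul]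
    exact quad_not_approx'' _ hθ _ _ _ hne

end Pool.Agent.Results.MP_8ac988_an.EveryMatrix
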